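import Mathlib
import Pool.Agent.MT100G.Stmts
import Pool.Agent.Helper19_MT100G.Hpl

/-!
# MT100-GEN, example module X4, part 1: the loop around a conifold point

If the fundamental matrix is `A + log (w - lam) b ⊗ l` near a point `lam`, with `A`, `b` single
valued, and `b = Y v`, then the continuation along a small circle around `lam` multiplies it by
`1 + 2 π i v ⊗ l`.
-/

set_option autoImplicit false

namespace Pool.Agent.MT100G.H33

open Matrix Polynomial Pool.Agent.MT100 Pool.Agent.Helper78_MT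
open Pool.Agent.MT100G.H19

variable {d : Type} [Fintype d] [DecidableEq d] {q : ℤ[X]} {B : Matrix d d ℤ[X]}

/-- the matrix of the system -/
noncomputable def AM (q : ℤ[X]) (B : Matrix d d ℤ[X]) (w : ℂ) : Matrix d d ℂ :=
  -((w * zC q w⁻¹)⁻¹) • B.map (fun p => zC p w⁻¹)

theorem AM_mul (Y : Matrix d d ℂ) (w : ℂ) (i j : d) : (AM q B w * Y) i j =
    -((w * zC q w⁻¹)⁻¹ * (B.map (fun p => zC p w⁻¹) * Y) i j) := by
  rw [AM, Matrix.smul_mul, Matrix.smul_apply, smul_eq_mul, neg_mul]

theorem zC_diff (p : ℤ[X]) {w : ℂ} (hw : w ≠ 0) : DifferentiableAt ℂ (fun x : ℂ => zC p x⁻¹) w := by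
  unfold zC
  exact (Polynomial.differentiable _).differentiableAt.comp w (differentiableAt_inv hw)

theorem AM_diff {c : ℂ} {ρ : ℝ} (hreg : ∀ w ∈ Metric.ball c ρ, w ≠ 0 ∧ zC q w⁻¹ ≠ 0) (i j : d) :
    DifferentiableOn ℂ (fun w => AM q B w i j) (Metric.ball c ρ) := by
  intro w hw
  obtain ⟨h0, h1⟩ := hreg w hw
  have h2 : DifferentiableAt ℂ (fun w => -((w * zC q w⁻¹)⁻¹) * zC (B i j) w⁻¹) w := by
    refine DifferentiableAt.mul (DifferentiableAt.neg (DifferentiableAt.inv ?_ ?_)) (zC_diff _ h0)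
    · exact differentiableAt_id.mul (zC_diff _ h0)
    · exact mul_ne_zero h0 h1
  exact h2.differentiableWithinAt

/-- continuation to a neighbouring disc -/
theorem ext_disc (ode : OdeStmt) (uni : UniStmt) {U : Set ℂ} {c c' : ℂ} {ρ ρ' : ℝ}
    {Y : ℂ → Matrix d d ℂ} (hY : SolOn q B c ρ Y) (hU : Metric.ball c ρ ⊆ U) (hρ' : 0 < ρ')
    (hU' : Metric.ball c' ρ' ⊆ U)
    (hreg : ∀ w ∈ Metric.ball c' ρ', w ≠ 0 ∧ zC q w⁻¹ ≠ 0)
    (hne : (Metric.ball c ρ ∩ Metric.ball c' ρ').Nonempty) :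
    ∃ Y' : ℂ → Matrix d d ℂ, Stp q B U (c, ρ, Y) (c', ρ', Y') := by
  obtain ⟨Z, -, hZ⟩ := ode d (AM q B) c' ρ' hρ' (fun i j => AM_diff hreg i j)
  have hZs : SolOn q B c' ρ' Z := by
    refine ⟨hρ', hreg, fun w hw => (hZ w hw).1, fun w hw i j => ?_⟩
    rw [← AM_mul]
    exact (hZ w hw).2 i j
  obtain ⟨g, hg⟩ := uni d (AM q B) (Metric.ball c ρ ∩ Metric.ball c' ρ')
    (Metric.isOpen_ball.inter Metric.isOpen_ball) ((convex_ball _ _).inter (convex_ball _ _)) Z Y
    (fun w hw => hZ w hw.2) (fun w hw i j => by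
      rw [AM_mul]
      exact hY.ode w hw.1 i j)
  obtain ⟨w0, hw0⟩ := hne
  have hgd : IsUnit g.det := by
    have h1 := hY.det w0 hw0.1
    rw [hg w0 hw0, Matrix.det_mul] at h1
    exact isUnit_of_mul_isUnit_right h1
  exact ⟨fun w => Z w * g, hY, SolOn.mulg hZs hgd, hU, hU', ⟨w0, hw0⟩, fun w hw => hg w hw⟩

/-! ### Eight points on a circle -/

/-- the directions -/
noncomputable def ze (k : ℕ) : ℂ := Complex.exp (Complex.I * Real.pi / 4 * k)

/-- the opposite directions -/
noncomputable def zi (k : ℕ) : ℂ := Complex.exp (-(Complex.I * Real.pi / 4 * k))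

theorem ze_zi (k : ℕ) : ze k * zi k = 1 := by
  rw [ze, zi, ← Complex.exp_add, add_neg_cancel, Complex.exp_zero]

theorem norm_zi (k : ℕ) : ‖zi k‖ = 1 := by
  rw [zi, Complex.norm_exp]
  have : (-(Complex.I * Real.pi / 4 * k)).re = 0 := by
    have h : -(Complex.I * Real.pi / 4 * k) = ((-(Real.pi / 4 * k) : ℝ) : ℂ) * Complex.I := by
      push_cast
      ring
    rw [h, Complex.re_ofReal_mul, Complex.I_re, mul_zero]
  rw [this, Real.exp_zero]

theorem norm_ze (k : ℕ) : ‖ze k‖ = 1 := by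
  have h := congrArg norm (ze_zi k)
  rw [norm_mul, norm_zi, mul_one, norm_one] at h
  exact h

/-- the logarithm on the `k`-th disc -/
noncomputable def lo (lam : ℂ) (k : ℕ) (w : ℂ) : ℂ :=
  Complex.log ((w - lam) * zi k) + Complex.I * Real.pi / 4 * k

theorem ball_re {lam : ℂ} {r : ℝ} {k : ℕ} {w : ℂ}
    (hw : w ∈ Metric.ball (lam + r * ze k) (r / 2)) : r / 2 < ((w - lam) * zi k).re := by
  have h1 : ‖w - (lam + r * ze k)‖ < r / 2 := by rwa [mem_ball_iff_norm] at hw
  have h2 : (w - lam) * zi k = (w - (lam + r * ze k)) * zi k + r := by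
    linear_combination (r : ℂ) * ze_zi k
  have h3 : |((w - (lam + r * ze k)) * zi k).re| ≤ ‖w - (lam + r * ze k)‖ := by
    refine (Complex.abs_re_le_norm _).trans ?_
    rw [norm_mul, norm_zi, mul_one]
  have h4 := (abs_lt.1 (h3.trans_lt h1)).1
  rw [h2, Complex.add_re, Complex.ofReal_re]
  linarith

theorem ball_sub {lam : ℂ} {r ε : ℝ} (hr : 0 < r) (hr' : r + r / 2 < ε) {k : ℕ} {w : ℂ}
    (hw : w ∈ Metric.ball (lam + r * ze k) (r / 2)) : w ∈ Metric.ball lam ε ∧ w ≠ lam := by
  refine ⟨?_, ?_⟩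
  · rw [mem_ball_iff_norm] at hw ⊢
    have h1 : w - lam = (w - (lam + r * ze k)) + r * ze k := by ring
    have h2 : ‖(r : ℂ) * ze k‖ = r := by
      rw [norm_mul, norm_ze, mul_one, Complex.norm_real, Real.norm_eq_abs, abs_of_pos hr]
    rw [h1]
    refine (norm_add_le _ _).trans_lt ?_
    rw [h2]
    linarith
  · intro h
    have := ball_re hw
    rw [h, sub_self, zero_mul, Complex.zero_re] at this
    linarith

theorem zi_succ (k : ℕ) : zi (k + 1) = zi k * Complex.exp (-(Complex.I * Real.pi / 4)) := by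
  rw [zi, zi, ← Complex.exp_add]
  congr 1
  push_cast
  ring

theorem ze_succ (k : ℕ) : ze (k + 1) = ze k * Complex.exp (Complex.I * Real.pi / 4) := by
  rw [ze, ze, ← Complex.exp_add]
  congr 1
  push_cast
  ring

theorem log_e : Complex.log (Complex.exp (-(Complex.I * Real.pi / 4))) =
    -(Complex.I * Real.pi / 4) := by
  have hpi := Real.pi_pos
  have h : (-(Complex.I * Real.pi / 4)) = ((-(Real.pi / 4) : ℝ) : ℂ) * Complex.I := by
    push_cast
    ring
  have him : (-(Complex.I * Real.pi / 4)).im = -(Real.pi / 4) := by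
    rw [h, Complex.im_ofReal_mul, Complex.I_im, mul_one]
  apply Complex.log_exp
  · rw [him]; linarith
  · rw [him]; linarith

theorem lo_succ {lam : ℂ} {k : ℕ} {w : ℂ} (h : 0 < ((w - lam) * zi k).re) :
    lo lam (k + 1) w = lo lam k w := by
  have hpi := Real.pi_pos
  have hx : (w - lam) * zi k ≠ 0 := by
    intro h0
    rw [h0, Complex.zero_re] at h
    exact lt_irrefl _ h
  have ha : |((w - lam) * zi k).arg| < Real.pi / 2 := Complex.abs_arg_lt_pi_div_two_iff.2 (Or.inl h)
  have ha' := abs_lt.1 ha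
  have he : (Complex.exp (-(Complex.I * Real.pi / 4))).arg = -(Real.pi / 4) := by
    have h1 := congrArg Complex.im log_e
    rw [Complex.log_im] at h1
    rw [h1]
    have h : (-(Complex.I * Real.pi / 4)) = ((-(Real.pi / 4) : ℝ) : ℂ) * Complex.I := by
      push_cast
      ring
    rw [h, Complex.im_ofReal_mul, Complex.I_im, mul_one]
  have h1 : Complex.log ((w - lam) * zi (k + 1)) =
      Complex.log ((w - lam) * zi k) + -(Complex.I * Real.pi / 4) := by
    rw [zi_succ, ← mul_assoc, Complex.log_mul_eq_add_log_iff hx (Complex.exp_ne_zero _) |>.2, log_e]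
    rw [he]
    exact ⟨by linarith, by linarith⟩
  rw [lo, lo, h1]
  push_cast
  ring

theorem zi_eight : zi 8 = 1 := by
  rw [zi]
  have : -(Complex.I * Real.pi / 4 * ((8 : ℕ) : ℂ)) = -(2 * Real.pi * Complex.I) := by
    push_cast
    ring
  rw [this, Complex.exp_neg, Complex.exp_two_pi_mul_I, inv_one]

theorem ze_eight : ze 8 = 1 := by
  have h := ze_zi 8
  rw [zi_eight, mul_one] at h
  exact h

theorem lo_eight (lam w : ℂ) : lo lam 8 w = Complex.log (w - lam) + 2 * Real.pi * Complex.I := by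
  rw [lo, zi_eight, mul_one]
  push_cast
  ring

theorem ze_zero : ze 0 = 1 := by simp [ze]

theorem lo_zero (lam w : ℂ) : lo lam 0 w = Complex.log (w - lam) := by simp [lo, zi]

theorem norm_e_sub : ‖Complex.exp (Complex.I * Real.pi / 4) - 1‖ < 1 := by
  have h : Complex.I * Real.pi / 4 = ((Real.pi / 4 : ℝ) : ℂ) * Complex.I := by
    push_cast
    ring
  rw [h, Complex.exp_mul_I, ← Complex.ofReal_cos, ← Complex.ofReal_sin, Real.cos_pi_div_four,
    Real.sin_pi_div_four]
  have h2 : (1.4 : ℝ) < Real.sqrt 2 := by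
    rw [Real.lt_sqrt (by norm_num)]
    norm_num
  have h2' : Real.sqrt 2 < 1.5 := by
    rw [Real.sqrt_lt' (by norm_num)]
    norm_num
  have hs : Real.sqrt 2 ^ 2 = 2 := Real.sq_sqrt (by norm_num)
  have h3 : (((Real.sqrt 2 / 2 : ℝ) : ℂ) + ((Real.sqrt 2 / 2 : ℝ) : ℂ) * Complex.I - 1) =
      ⟨Real.sqrt 2 / 2 - 1, Real.sqrt 2 / 2⟩ := by
    apply Complex.ext <;> simp
  rw [h3]
  have h4 : ‖(⟨Real.sqrt 2 / 2 - 1, Real.sqrt 2 / 2⟩ : ℂ)‖ ^ 2 < 1 := by
    rw [← Complex.normSq_eq_norm_sq, Complex.normSq_mk]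
    nlinarith
  exact (sq_lt_one_iff₀ (norm_nonneg _)).1 h4

theorem inter_ne {lam : ℂ} {r : ℝ} (hr : 0 < r) (k : ℕ) :
    (Metric.ball (lam + r * ze k) (r / 2) ∩ Metric.ball (lam + r * ze (k + 1)) (r / 2)).Nonempty := by
  have key : ‖(r : ℂ) * ze k * (Complex.exp (Complex.I * Real.pi / 4) - 1) / 2‖ < r / 2 := by
    rw [norm_div, norm_mul, norm_mul, norm_ze, mul_one, Complex.norm_real, Real.norm_eq_abs,
      abs_of_pos hr, Complex.norm_ofNat]
    have := norm_e_sub
    have h1 : r * ‖Complex.exp (Complex.I * Real.pi / 4) - 1‖ < r * 1 :=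
      mul_lt_mul_of_pos_left this hr
    linarith
  refine ⟨lam + r * (ze k + ze (k + 1)) / 2, ?_, ?_⟩
  · rw [mem_ball_iff_norm]
    have : lam + r * (ze k + ze (k + 1)) / 2 - (lam + r * ze k) =
        (r : ℂ) * ze k * (Complex.exp (Complex.I * Real.pi / 4) - 1) / 2 := by
      rw [ze_succ]
      ring
    rw [this]
    exact key
  · rw [mem_ball_iff_norm]
    have : lam + r * (ze k + ze (k + 1)) / 2 - (lam + r * ze (k + 1)) =
        -((r : ℂ) * ze k * (Complex.exp (Complex.I * Real.pi / 4) - 1) / 2) := by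
      rw [ze_succ]
      ring
    rw [this, norm_neg]
    exact key

theorem loop (ode : OdeStmt) (uni : UniStmt) {U : Set ℂ} {lam : ℂ} {r ε : ℝ} (hr : 0 < r)
    (hr' : r + r / 2 < ε) (hU : Metric.ball lam ε ⊆ U)
    (hreg : ∀ w ∈ Metric.ball lam ε, w ≠ lam → w ≠ 0 ∧ zC q w⁻¹ ≠ 0)
    {Y0 : ℂ → Matrix d d ℂ} (hY0 : SolOn q B (lam + r) (r / 2) Y0)
    (A : ℂ → Matrix d d ℂ) (b : ℂ → d → ℂ) (v l : d → ℂ)
    (hA : ∀ i j, ∀ w ∈ Metric.ball lam ε, w ≠ lam → DifferentiableAt ℂ (fun x => A x i j) w)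
    (hb : ∀ i, ∀ w ∈ Metric.ball lam ε, w ≠ lam → DifferentiableAt ℂ (fun x => b x i) w)
    (h1 : ∀ w ∈ Metric.ball (lam + r) (r / 2),
      Y0 w = A w + Complex.log (w - lam) • vecMulVec (b w) l)
    (h2 : ∀ w ∈ Metric.ball (lam + r) (r / 2), b w = Y0 w *ᵥ v) :
    IsUnit (1 + (2 * Real.pi * Complex.I) • vecMulVec v l : Matrix d d ℂ).det ∧
    Cnt q B U (lam + r, r / 2, Y0)
      (lam + r, r / 2, fun w => Y0 w * (1 + (2 * Real.pi * Complex.I) • vecMulVec v l)) := by
  have hstart : lam + (r : ℂ) * ze 0 = lam + r := by rw [ze_zero, mul_one]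
  have hend : lam + (r : ℂ) * ze 8 = lam + r := by rw [ze_eight, mul_one]
  have main : ∀ k : ℕ, ∃ Y : ℂ → Matrix d d ℂ,
      Cnt q B U (lam + r, r / 2, Y0) (lam + r * ze k, r / 2, Y) ∧
      SolOn q B (lam + r * ze k) (r / 2) Y ∧
      ∀ w ∈ Metric.ball (lam + r * ze k) (r / 2), Y w = A w + lo lam k w • vecMulVec (b w) l := by
    intro k
    induction k with
    | zero =>
      rw [hstart]
      refine ⟨Y0, Relation.ReflTransGen.refl, hY0, fun w hw => ?_⟩
      rw [lo_zero]
      exact h1 w hw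
    | succ k ih =>
      obtain ⟨Y, hc, hs, hf⟩ := ih
      obtain ⟨Y', hst⟩ := ext_disc ode uni (U := U) (c' := lam + r * ze (k + 1)) (ρ' := r / 2) hs
        (fun w hw => hU (ball_sub hr hr' hw).1) (by linarith)
        (fun w hw => hU (ball_sub hr hr' hw).1)
        (fun w hw => hreg w (ball_sub hr hr' hw).1 (ball_sub hr hr' hw).2) (inter_ne hr k)
      refine ⟨Y', Relation.ReflTransGen.tail hc hst, hst.2.1, ?_⟩
      obtain ⟨-, hs', -, -, ⟨w0, hw0⟩, hag⟩ := hst
      have key : ∀ i j, Set.EqOn (fun w => Y' w i j)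
          (fun w => A w i j + lo lam (k + 1) w * (b w i * l j))
          (Metric.ball (lam + r * ze (k + 1)) (r / 2)) := by
        intro i j
        have a1 : AnalyticOnNhd ℂ (fun w => Y' w i j)
            (Metric.ball (lam + r * ze (k + 1)) (r / 2)) := by
          refine DifferentiableOn.analyticOnNhd (fun w hw => ?_) Metric.isOpen_ball
          exact (hs'.ode w hw i j).differentiableAt.differentiableWithinAt
        have a2 : AnalyticOnNhd ℂ (fun w => A w i j + lo lam (k + 1) w * (b w i * l j))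
            (Metric.ball (lam + r * ze (k + 1)) (r / 2)) := by
          refine DifferentiableOn.analyticOnNhd (fun w hw => ?_) Metric.isOpen_ball
          have hb1 := ball_sub hr hr' hw
          have hre := ball_re hw
          refine DifferentiableAt.differentiableWithinAt ?_
          refine (hA i j w hb1.1 hb1.2).add (DifferentiableAt.mul ?_
            ((hb i w hb1.1 hb1.2).mul_const _))
          unfold lo
          refine DifferentiableAt.add_const _ ?_
          refine DifferentiableAt.clog ?_ (Or.inl (by linarith))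
          exact (differentiableAt_id.sub_const _).mul_const _
        refine a1.eqOn_of_preconnected_of_eventuallyEq a2 (convex_ball _ _).isPreconnected hw0.2 ?_
        have hop : IsOpen (Metric.ball (lam + r * ze k) (r / 2) ∩
            Metric.ball (lam + r * ze (k + 1)) (r / 2)) :=
          Metric.isOpen_ball.inter Metric.isOpen_ball
        filter_upwards [hop.mem_nhds hw0] with w hw
        have hre := ball_re hw.1
        have e1 : Y' w = Y w := (hag w hw).symm
        rw [e1, hf w hw.1, lo_succ (by linarith), Matrix.add_apply, Matrix.smul_apply,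
          smul_eq_mul, vecMulVec_apply]
      intro w hw
      ext i j
      rw [Matrix.add_apply, Matrix.smul_apply, smul_eq_mul, vecMulVec_apply]
      exact key i j hw
  obtain ⟨Y, hc, hs, hf⟩ := main 8
  rw [hend] at hc hs hf
  have hfin : ∀ w ∈ Metric.ball (lam + r) (r / 2),
      Y w = Y0 w * (1 + (2 * Real.pi * Complex.I) • vecMulVec v l) := by
    intro w hw
    rw [hf w hw, lo_eight, add_smul, ← add_assoc, ← h1 w hw, Matrix.mul_add, Matrix.mul_one,
      Matrix.mul_smul, Matrix.mul_vecMulVec, ← h2 w hw]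
  have hctr : lam + (r : ℂ) ∈ Metric.ball (lam + (r : ℂ)) (r / 2) :=
    Metric.mem_ball_self (by linarith)
  have hdet : IsUnit (1 + (2 * Real.pi * Complex.I) • vecMulVec v l : Matrix d d ℂ).det := by
    have h3 := hs.det _ hctr
    rw [hfin _ hctr, Matrix.det_mul] at h3
    exact isUnit_of_mul_isUnit_right h3
  have hsub : Metric.ball (lam + (r : ℂ)) (r / 2) ⊆ U := by
    intro w hw
    rw [← hstart] at hw
    exact hU (ball_sub hr hr' hw).1
  refine ⟨hdet, Relation.ReflTransGen.tail hc ⟨hs, SolOn.mulg hY0 hdet, hsub, hsub,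
    ⟨_, hctr, hctr⟩, fun w hw => hfin w hw.1⟩⟩

end Pool.Agent.MT100G.H33
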