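import Mathlib
import Pool.Agent.MT100G.Stmts
import Pool.Agent.Helper33_MTG.Loop

/-!
# MT100-GEN, example module X4, part 2: real germs and the conifold monodromy
-/

set_option autoImplicit false

namespace Pool.Agent.MT100G.H33

open Matrix Polynomial Pool.Agent.MT100 Pool.Agent.Helper78_MT
open Pool.Agent.MT100G.H19
open scoped Topology

/-- complexification of a real function of the class `MerG` -/
theorem merG_complex {f : ℝ → ℝ} (hf : MerG f) : ∃ (δ : ℝ) (F : ℂ → ℂ), 0 < δ ∧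
    (∀ z : ℂ, ‖z‖ < δ → z ≠ 0 → DifferentiableAt ℂ F z) ∧
    ∀ u : ℝ, 0 < u → u < δ → F u = (f u : ℂ) := by
  obtain ⟨k, g, ⟨p, r, hp⟩, he⟩ := hf
  obtain ⟨δ0, hδ0, hδr⟩ := ENNReal.lt_iff_exists_nnreal_btwn.1 hp.r_pos
  obtain ⟨δ1, hδ1, hsub⟩ := mem_nhdsGT_iff_exists_Ioo_subset.1 he
  have hδ0' : (0 : ℝ) < δ0 := by exact_mod_cast hδ0
  have hsum : Summable fun n => ‖p n‖ * (δ0 : ℝ) ^ n :=
    p.summable_norm_mul_pow (hδr.trans_le hp.r_le)
  have hdiff : DifferentiableOn ℂ (fun z : ℂ => ∑' n : ℕ, (p.coeff n : ℂ) * z ^ n)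
      (Metric.ball 0 (δ0 : ℝ)) := by
    refine Complex.differentiableOn_tsum_of_summable_norm hsum (fun n => ?_) Metric.isOpen_ball
      (fun n z hz => ?_)
    · exact (differentiable_const _).mul (differentiable_id.pow n) |>.differentiableOn
    · rw [norm_mul, norm_pow, Complex.norm_real, FormalMultilinearSeries.norm_apply_eq_norm_coef]
      rw [mem_ball_zero_iff] at hz
      exact mul_le_mul_of_nonneg_left (pow_le_pow_left₀ (norm_nonneg _) hz.le n) (norm_nonneg _)
  have hval : ∀ u : ℝ, 0 < u → u < δ0 → (∑' n : ℕ, (p.coeff n : ℂ) * (u : ℂ) ^ n) = (g u : ℂ) := by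
    intro u hu hu'
    have hmem : u ∈ Metric.eball (0 : ℝ) r := by
      rw [Metric.mem_eball, edist_zero_right]
      refine lt_of_le_of_lt ?_ hδr
      rw [Real.enorm_eq_ofReal hu.le]
      exact ENNReal.ofReal_le_of_le_toReal (by simpa using hu'.le)
    have h1 := hp.hasSum hmem
    rw [zero_add] at h1
    have h2 : HasSum (fun n : ℕ => p.coeff n * u ^ n) (g u) := by
      refine h1.congr_fun ?_ 
      intro n
      rw [FormalMultilinearSeries.apply_eq_pow_smul_coeff, smul_eq_mul, mul_comm]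
    have h3 := Complex.hasSum_ofReal.2 h2
    rw [← h3.tsum_eq]
    refine tsum_congr fun n => ?_
    push_cast
    rfl
  refine ⟨min (δ0 : ℝ) δ1, fun z => (∑' n : ℕ, (p.coeff n : ℂ) * z ^ n) / z ^ k,
    lt_min hδ0' hδ1, ?_, ?_⟩
  · intro z hz hz0
    have hz1 : z ∈ Metric.ball (0 : ℂ) (δ0 : ℝ) := by
      rw [mem_ball_zero_iff]
      exact hz.trans_le (min_le_left _ _)
    have h1 := (hdiff z hz1).differentiableAt (Metric.isOpen_ball.mem_nhds hz1)
    exact h1.div (differentiableAt_id.pow k) (pow_ne_zero k hz0)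
  · intro u hu hu'
    have h1 := hval u hu (hu'.trans_le (min_le_left _ _))
    have h2 : u ^ k * f u = g u := hsub ⟨hu, hu'.trans_le (min_le_right _ _)⟩
    have hu0 : (u : ℂ) ^ k ≠ 0 := pow_ne_zero k (by exact_mod_cast hu.ne')
    show (∑' n : ℕ, (p.coeff n : ℂ) * (u : ℂ) ^ n) / (u : ℂ) ^ k = _
    rw [h1, ← h2, div_eq_iff hu0]
    push_cast
    ring

/-- analytic functions on a disc with real centre which agree on the real points -/
theorem ident {f g : ℂ → ℂ} {x0 ρ : ℝ} (hρ : 0 < ρ)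
    (hf : DifferentiableOn ℂ f (Metric.ball (x0 : ℂ) ρ))
    (hg : DifferentiableOn ℂ g (Metric.ball (x0 : ℂ) ρ))
    (h : ∀ x : ℝ, x0 - ρ < x → x < x0 + ρ → f x = g x) :
    Set.EqOn f g (Metric.ball (x0 : ℂ) ρ) := by
  refine (hf.analyticOnNhd Metric.isOpen_ball).eqOn_of_preconnected_of_frequently_eq
    (hg.analyticOnNhd Metric.isOpen_ball) (convex_ball _ _).isPreconnected
    (Metric.mem_ball_self hρ) ?_
  have ht : Filter.Tendsto (fun x : ℝ => (x : ℂ)) (𝓝[≠] x0) (𝓝[≠] (x0 : ℂ)) := by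
    refine Complex.continuous_ofReal.continuousAt.continuousWithinAt.tendsto_nhdsWithin ?_
    intro x hx h'
    exact hx (Complex.ofReal_injective h')
  refine ht.frequently (Filter.Eventually.frequently ?_)
  have hev : ∀ᶠ x in 𝓝 x0, x ∈ Set.Ioo (x0 - ρ) (x0 + ρ) :=
    Ioo_mem_nhds (by linarith) (by linarith)
  filter_upwards [nhdsWithin_le_nhds hev] with x hx
  exact h x hx.1 hx.2

/-- the singular points are isolated -/
theorem reg_near {q : ℤ[X]} (hq : q ≠ 0) (lam : ℂ) :
    ∃ ε : ℝ, 0 < ε ∧ ∀ w ∈ Metric.ball lam ε, w ≠ lam → w ≠ 0 ∧ zC q w⁻¹ ≠ 0 := by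
  have hq' : q.map (Int.castRingHom ℂ) ≠ 0 :=
    (Polynomial.map_ne_zero_iff (RingHom.injective_int _)).2 hq
  have hfin : ({w : ℂ | w = 0 ∨ zC q w⁻¹ = 0} \ {lam}).Finite := by
    refine Set.Finite.subset (s := {0} ∪ (fun x : ℂ => x⁻¹) ''
      ((q.map (Int.castRingHom ℂ)).roots.toFinset : Set ℂ)) ?_ ?_
    · exact (Set.finite_singleton _).union ((Finset.finite_toSet _).image _)
    · rintro w ⟨h | h, -⟩
      · exact Or.inl h
      · right
        refine ⟨w⁻¹, ?_, inv_inv w⟩
        rw [Finset.mem_coe, Multiset.mem_toFinset, Polynomial.mem_roots hq']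
        exact h
  obtain ⟨ε, hε, hsub⟩ := Metric.isOpen_iff.1 hfin.isClosed.isOpen_compl lam (by
    intro h
    exact h.2 rfl)
  refine ⟨ε, hε, fun w hw hwl => ?_⟩
  have h1 := hsub hw
  by_contra h2
  apply h1
  refine ⟨?_, hwl⟩
  by_cases h3 : w = 0
  · exact Or.inl h3
  · right
    by_contra h4
    exact h2 ⟨h3, h4⟩

variable {d : Type} [Fintype d] [DecidableEq d]

/-- the conifold monodromy -/
theorem conif (ode : OdeStmt) (uni : UniStmt) {H : Matrix d d (PowerSeries ℚ)} {N : Matrix d d ℤ}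
    {q : ℤ[X]} {B : Matrix d d ℤ[X]} (hq : q ≠ 0) (lam : ℝ)
    (hsol : ∀ (c : ℂ) (ρ : ℝ), 0 < ρ → Metric.ball c ρ ⊆ {w | lam < w.re} →
      SolOn q B c ρ (YH H N))
    (W : ℝ → Matrix d d ℝ)
    (hW : ∀ w : ℝ, lam < w → YH H N (w : ℂ) = (W w).map (algebraMap ℝ ℂ))
    (v l : d → ℝ) (A : ℝ → Matrix d d ℝ) (hA : ∀ a i, MerG fun u => A u a i)
    (hb : ∀ a, MerG fun u => (W (lam + u) *ᵥ v) a)
    (he : ∀ᶠ u in nhdsWithin (0 : ℝ) (Set.Ioi 0),
      W (lam + u) = A u + Real.log u • vecMulVec (W (lam + u) *ᵥ v) l) :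
    (1 + (2 * Real.pi * Complex.I) • vecMulVec (fun i => (v i : ℂ)) (fun i => (l i : ℂ)) :
      Matrix d d ℂ) ∈ mon H N q B Set.univ := by
  obtain ⟨ε0, hε0, hreg⟩ := reg_near hq (lam : ℂ)
  choose δA FA hδA hdA hvA using fun p : d × d => merG_complex (hA p.1 p.2)
  choose δb Fb hδb hdb hvb using fun a : d => merG_complex (hb a)
  obtain ⟨ε1, hε1, hsub1⟩ := mem_nhdsGT_iff_exists_Ioo_subset.1 he
  obtain ⟨e, ⟨he0, heA, heb, hee0, hee1⟩⟩ : ∃ e : ℝ, 0 < e ∧ (∀ p : d × d, e < δA p) ∧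
      (∀ a, e < δb a) ∧ e < ε0 ∧ e < ε1 := by
    have h1 : ∀ᶠ e in 𝓝[>] (0 : ℝ), 0 < e ∧ (∀ p : d × d, e < δA p) ∧
      (∀ a, e < δb a) ∧ e < ε0 ∧ e < ε1 := by
      have s1 : ∀ {t : ℝ}, 0 < t → ∀ᶠ e in 𝓝[>] (0 : ℝ), e < t := fun ht =>
        Filter.mem_of_superset (Ioo_mem_nhdsGT ht) (fun x hx => hx.2)
      refine (eventually_mem_nhdsWithin).and ((Filter.eventually_all.2 fun p => s1 (hδA p)).and
        ((Filter.eventually_all.2 fun a => s1 (hδb a)).and ((s1 hε0).and (s1 hε1))))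
    exact h1.exists
  have hr : (0 : ℝ) < e / 2 := by linarith
  have hr' : e / 2 + e / 2 / 2 < e := by linarith
  obtain ⟨r, hre⟩ : ∃ r : ℝ, r = e / 2 := ⟨_, rfl⟩
  rw [← hre] at hr hr'
  -- the disc
  have hhalf : Metric.ball ((lam : ℂ) + (r : ℂ)) (r / 2) ⊆ {w : ℂ | lam < w.re} := by
    intro w hw
    rw [mem_ball_iff_norm] at hw
    have h1 := (abs_lt.1 ((Complex.abs_re_le_norm _).trans_lt hw)).1
    rw [Complex.sub_re, Complex.add_re, Complex.ofReal_re, Complex.ofReal_re] at h1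
    show lam < w.re
    linarith
  have hY0 := hsol ((lam : ℂ) + (r : ℂ)) (r / 2) (by linarith) hhalf
  have hdAw : ∀ i j, ∀ w ∈ Metric.ball (lam : ℂ) e, w ≠ lam →
      DifferentiableAt ℂ (fun x : ℂ => FA (i, j) (x - lam)) w := by
    intro i j w hw hwl
    rw [mem_ball_iff_norm] at hw
    have h1 := hdA (i, j) (w - lam) (hw.trans (heA _)) (sub_ne_zero.2 hwl)
    exact h1.comp w (differentiableAt_id.sub_const _)
  have hdbw : ∀ i, ∀ w ∈ Metric.ball (lam : ℂ) e, w ≠ lam →
      DifferentiableAt ℂ (fun x : ℂ => Fb i (x - lam)) w := by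
    intro i w hw hwl
    rw [mem_ball_iff_norm] at hw
    have h1 := hdb i (w - lam) (hw.trans (heb _)) (sub_ne_zero.2 hwl)
    exact h1.comp w (differentiableAt_id.sub_const _)
  have hin : ∀ w ∈ Metric.ball ((lam : ℂ) + (r : ℂ)) (r / 2),
      w ∈ Metric.ball (lam : ℂ) e ∧ w ≠ lam := by
    intro w hw
    refine ⟨?_, ?_⟩
    · rw [mem_ball_iff_norm] at hw ⊢
      have h1 : w - (lam : ℂ) = (w - ((lam : ℂ) + (r : ℂ))) + r := by ring
      rw [h1]
      refine (norm_add_le _ _).trans_lt ?_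
      rw [Complex.norm_real, Real.norm_eq_abs, abs_of_pos hr]
      linarith
    · intro h
      have h2 := hhalf hw
      rw [h] at h2
      have h3 : lam < ((lam : ℂ)).re := h2
      rw [Complex.ofReal_re] at h3
      exact lt_irrefl _ h3
  have hYdiff : ∀ i j, DifferentiableOn ℂ (fun w => YH H N w i j)
      (Metric.ball (((lam + r : ℝ)) : ℂ) (r / 2)) := by
    intro i j w hw
    rw [Complex.ofReal_add] at hw
    exact (hY0.ode w hw i j).differentiableAt.differentiableWithinAt
  have hreal : ∀ x : ℝ, lam + r - r / 2 < x → x < lam + r + r / 2 →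
      0 < x - lam ∧ x - lam < e := by
    intro x h1 h2
    constructor <;> linarith
  have h1 : ∀ w ∈ Metric.ball ((lam : ℂ) + (r : ℂ)) (r / 2),
      YH H N w = (fun w => Matrix.of fun i j => FA (i, j) (w - lam) : ℂ → Matrix d d ℂ) w +
        Complex.log (w - lam) • vecMulVec ((fun w i => Fb i (w - lam)) w) (fun i => (l i : ℂ)) := by
    intro w hw
    ext i j
    have key := ident (f := fun w => YH H N w i j)
      (g := fun w => FA (i, j) (w - lam) + Complex.log (w - lam) * (Fb i (w - lam) * (l j : ℂ)))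
      (x0 := lam + r) (ρ := r / 2) (by linarith) (hYdiff i j) (by
        intro w hw
        rw [Complex.ofReal_add] at hw
        obtain ⟨a1, a2⟩ := hin w hw
        refine DifferentiableAt.differentiableWithinAt ?_
        refine (hdAw i j w a1 a2).add (DifferentiableAt.mul ?_ ((hdbw i w a1 a2).mul_const _))
        refine DifferentiableAt.clog (differentiableAt_id.sub_const _) (Or.inl ?_)
        have := hhalf hw
        simp only [Complex.sub_re, Complex.ofReal_re]
        have h' : lam < w.re := this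
        linarith) (by
        intro x hx hx'
        obtain ⟨b1, b2⟩ := hreal x hx hx'
        have hev : W (lam + (x - lam)) = A (x - lam) +
            Real.log (x - lam) • vecMulVec (W (lam + (x - lam)) *ᵥ v) l :=
          hsub1 ⟨b1, b2.trans hee1⟩
        have e1 : lam + (x - lam) = x := by ring
        have e2 := hvA (i, j) (x - lam) b1 (b2.trans (heA _))
        have e3 := hvb i (x - lam) b1 (b2.trans (heb _))
        rw [Complex.ofReal_sub] at e2 e3
        rw [e1] at hev e3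
        have hlx : lam < x := by linarith
        show YH H N (x : ℂ) i j = FA (i, j) ((x : ℂ) - lam) + Complex.log ((x : ℂ) - lam) *
          (Fb i ((x : ℂ) - lam) * (l j : ℂ))
        rw [hW x hlx, e2, e3, Matrix.map_apply]
        have e4 : W x i j = A (x - lam) i j + Real.log (x - lam) * ((W x *ᵥ v) i * l j) := by
          conv_lhs => rw [hev]
          rw [Matrix.add_apply, Matrix.smul_apply, smul_eq_mul, vecMulVec_apply]
        have e5 : Complex.log ((x : ℂ) - lam) = ((Real.log (x - lam) : ℝ) : ℂ) := by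
          rw [← Complex.ofReal_sub, Complex.ofReal_log b1.le]
        rw [e4, e5]
        simp only [Complex.coe_algebraMap]
        push_cast
        rfl)
    rw [Complex.ofReal_add] at key
    exact key hw
  have h2 : ∀ w ∈ Metric.ball ((lam : ℂ) + (r : ℂ)) (r / 2),
      (fun (w : ℂ) i => Fb i (w - lam)) w = YH H N w *ᵥ (fun i => (v i : ℂ)) := by
    intro w hw
    ext i
    have key := ident (f := fun w => Fb i (w - lam))
      (g := fun w => ∑ j, YH H N w i j * (v j : ℂ))
      (x0 := lam + r) (ρ := r / 2) (by linarith) (by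
        intro w hw
        rw [Complex.ofReal_add] at hw
        obtain ⟨a1, a2⟩ := hin w hw
        exact (hdbw i w a1 a2).differentiableWithinAt) (by
        refine DifferentiableOn.fun_sum fun j _ => ?_
        exact (hYdiff i j).mul_const _) (by
        intro x hx hx'
        obtain ⟨b1, b2⟩ := hreal x hx hx'
        have e1 : lam + (x - lam) = x := by ring
        have e3 := hvb i (x - lam) b1 (b2.trans (heb _))
        rw [Complex.ofReal_sub, e1] at e3
        have hlx : lam < x := by linarith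
        show Fb i ((x : ℂ) - lam) = ∑ j, YH H N (x : ℂ) i j * (v j : ℂ)
        rw [e3, hW x hlx]
        simp only [Matrix.mulVec, dotProduct, Matrix.map_apply, Complex.coe_algebraMap]
        push_cast
        rfl)
    rw [Complex.ofReal_add] at key
    exact key hw
  obtain ⟨hdet, hcnt⟩ := loop ode uni (U := Set.univ) (lam := (lam : ℂ)) (ε := e) hr hr'
    (Set.subset_univ _)
    (fun w hw hwl => hreg w (Metric.ball_subset_ball hee0.le hw) hwl) hY0
    (fun w => Matrix.of fun i j => FA (i, j) (w - lam)) (fun w i => Fb i (w - lam))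
    (fun i => (v i : ℂ)) (fun i => (l i : ℂ)) (fun i j w hw hwl => hdAw i j w hw hwl)
    (fun i w hw hwl => hdbw i w hw hwl) h1 h2
  obtain ⟨g, hg⟩ : ∃ g : Matrix d d ℂ, g = 1 + (2 * Real.pi * Complex.I) •
    vecMulVec (fun i => (v i : ℂ)) (fun i => (l i : ℂ)) := ⟨_, rfl⟩
  rw [← hg] at hdet hcnt ⊢
  -- the small disc meets a base disc
  have hone : IsUnit (1 : Matrix d d ℂ).det := by rw [Matrix.det_one]; exact isUnit_one
  have hball : Metric.ball (((lam + 1 + r / 2 : ℝ)) : ℂ) 1 ⊆ {w : ℂ | lam < w.re} := by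
    intro w hw
    rw [mem_ball_iff_norm] at hw
    have h1 := (abs_lt.1 ((Complex.abs_re_le_norm _).trans_lt hw)).1
    rw [Complex.sub_re, Complex.ofReal_re] at h1
    show lam < w.re
    linarith
  have hmeet : (Metric.ball (((lam + 1 + r / 2 : ℝ)) : ℂ) 1 ∩
      Metric.ball ((lam : ℂ) + (r : ℂ)) (r / 2)).Nonempty := by
    by_cases hr2 : r < 4
    · refine ⟨(lam : ℂ) + r, ?_, Metric.mem_ball_self (by linarith)⟩
      rw [mem_ball_iff_norm]
      have : (lam : ℂ) + r - ((lam + 1 + r / 2 : ℝ) : ℂ) = ((r / 2 - 1 : ℝ) : ℂ) := by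
        push_cast
        ring
      rw [this, Complex.norm_real, Real.norm_eq_abs, abs_lt]
      constructor <;> linarith
    · refine ⟨((lam + r / 2 + 1 : ℝ) : ℂ), ?_, ?_⟩
      · rw [mem_ball_iff_norm]
        have : ((lam + r / 2 + 1 : ℝ) : ℂ) - ((lam + 1 + r / 2 : ℝ) : ℂ) = 0 := by
          push_cast
          ring
        rw [this, norm_zero]
        exact one_pos
      · rw [mem_ball_iff_norm]
        have : ((lam + r / 2 + 1 : ℝ) : ℂ) - ((lam : ℂ) + r) = ((1 - r / 2 : ℝ) : ℂ) := by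
          push_cast
          ring
        rw [this, Complex.norm_real, Real.norm_eq_abs, abs_lt]
        push Not at hr2
        constructor <;> linarith
  have hstep : ∀ g' : Matrix d d ℂ, IsUnit g'.det → Stp q B {w : ℂ | lam < w.re}
      ((((lam + 1 + r / 2 : ℝ)) : ℂ), 1, fun w => YH H N w * g')
      ((lam : ℂ) + (r : ℂ), r / 2, fun w => YH H N w * g') := fun g' hg' =>
    ⟨SolOn.mulg (hsol _ 1 one_pos hball) hg', SolOn.mulg hY0 hg', hball, hhalf, hmeet,
      fun w _ => rfl⟩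
  have hfull : ∀ g' : Matrix d d ℂ, IsUnit g'.det → ∀ c : ℝ, lam + 1 < c →
      Cnt q B Set.univ ((c : ℂ), 1, fun w => YH H N w * g')
      ((lam : ℂ) + (r : ℂ), r / 2, fun w => YH H N w * g') := by
    intro g' hg' c hc
    exact Cnt.mono (Set.subset_univ _) (Relation.ReflTransGen.tail
      (conn hsol hg' c (lam + 1 + r / 2) hc (by linarith)) (hstep g' hg'))
  have hY1 : (fun w => YH H N w * (1 : Matrix d d ℂ)) = YH H N := by
    funext w
    rw [Matrix.mul_one]
  have hc1 := hfull 1 hone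
  rw [hY1] at hc1
  show ∀ᶠ c : ℝ in Filter.atTop,
    Cnt q B Set.univ ((c : ℂ), 1, YH H N) ((c : ℂ), 1, fun w => YH H N w * g)
  filter_upwards [Filter.eventually_gt_atTop (lam + 1)] with c hc
  exact ((hc1 c hc).trans hcnt).trans (Cnt.symm (hfull g hdet c hc))

end Pool.Agent.MT100G.H33
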