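import Mathlib
import Pool.Agent.Helper78_MTG.ExStmts
import Pool.Agent.Helper33_MTG.Conif

/-!
# MT100-GEN, example module X4: the monodromy of the hypergeometric system at the conifold point
-/

set_option autoImplicit false

namespace Pool.Agent.MT100G.H33

open Matrix Polynomial Pool.Agent.MT100 Pool.Agent.Helper78_MT

theorem ex4 (ode : OdeStmt) (uni : UniStmt) (con : ConStmt) (cyc : CycStmt) (ex2 : Ex2Stmt) :
    Ex4Stmt := by
  intro D K q B hS
  obtain ⟨v, l, A, hA, hb, he⟩ := con D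
  obtain ⟨hv, hl, hlv⟩ := cyc D v l A hA hb he
  obtain ⟨hsol, hW⟩ := ex2 D K q B hS
  refine ⟨v, l, hv, hl, hlv, ?_⟩
  have h := conif ode uni hS.sys.q0 (D.lam : ℝ) hsol (W D) hW v l A hA hb he
  have h2 : (vecMulVec v l).map (algebraMap ℝ ℂ) =
      vecMulVec (fun i => (v i : ℂ)) (fun i => (l i : ℂ)) := by
    ext i j
    rw [Matrix.map_apply, vecMulVec_apply, vecMulVec_apply, Complex.coe_algebraMap,
      Complex.ofReal_mul]
  rw [h2]
  exact h

end Pool.Agent.MT100G.H33
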